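import Pool.Agent.H29.DM.TargetsR
import Pool.Agent.H29.HT.RLW

/-!
# The rows about finite rings
-/

set_option autoImplicit false

open Finset Complex

namespace Pool.Agent.H29.DM

open Pool.Agent.H31.SX (ND)
open Pool.Agent.H29.TC (AC MC)
open Pool.Agent.H23.DM (lg5 h5 Fq CS WD)

section

variable {R : Type} [CommRing R]

private theorem inv_of {n : ℕ} (h30 : IsUnit (30 : R)) (h : n ∣ 30) :
    IsUnit ((n : ℕ) : R) := by
  have h1 : ((30 : ℕ) : R) = (30 : R) := by norm_num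
  rw [← h1] at h30
  exact isUnit_of_dvd_unit (Nat.cast_dvd_cast h) h30

private theorem inv4 (h2 : IsUnit (2 : R)) : Ring.inverse (4 : R) = Ring.inverse (2 : R) ^ 2 := by
  have h4 : IsUnit (4 : R) := by
    have : (4 : R) = 2 * 2 := by norm_num
    rw [this]
    exact h2.mul h2
  have e2 : (2 : R) * Ring.inverse 2 = 1 := Ring.mul_inverse_cancel _ h2
  have e4 : (4 : R) * Ring.inverse 4 = 1 := Ring.mul_inverse_cancel _ h4
  apply h4.mul_left_cancel
  rw [e4]
  linear_combination (-(2 * Ring.inverse 2) - 1 : R) * e2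

private theorem lg_eq (h2 : IsUnit (2 : R)) (x : R) :
    lg5 x = Pool.Agent.H29.HT.lg5 (Ring.inverse 2) (Ring.inverse 3) (Ring.inverse 5) x := by
  unfold lg5 Pool.Agent.H29.HT.lg5
  rw [inv4 h2]

end

/-- (RL) the frequencies of the multiplicative characters. -/
theorem pf_RL : R_RL := by
  intro R _ _ θ J hθ hJ h30
  have h2 : IsUnit (2 : R) := by simpa using inv_of (n := 2) h30 (by norm_num)
  have h3 : IsUnit (3 : R) := by simpa using inv_of (n := 3) h30 (by norm_num)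
  have h5' : IsUnit (5 : R) := by simpa using inv_of (n := 5) h30 (by norm_num)
  obtain ⟨ha, hb, hc, hd⟩ := Pool.Agent.H29.HT.pf_RL R θ J (Ring.inverse 2) (Ring.inverse 3)
    (Ring.inverse 5) hθ hJ (Ring.mul_inverse_cancel _ h2) (Ring.mul_inverse_cancel _ h3)
    (Ring.mul_inverse_cancel _ h5')
  have e : ∀ (η : R → ℂ) (γ : R), Fq θ J η γ ↔ Pool.Agent.H29.HT.Fq (Ring.inverse 2)
      (Ring.inverse 3) (Ring.inverse 5) θ J η γ := by
    intro η γ
    unfold Fq Pool.Agent.H29.HT.Fq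
    simp only [lg_eq h2]
  refine ⟨fun η hη => ?_, fun η η' γ γ' h h' κ hκ => ?_, fun η γ h hp => ?_,
    fun η γ hM h a ha X => ?_⟩
  · obtain ⟨γ, hγ⟩ := ha η hη
    exact ⟨γ, (e _ _).2 hγ⟩
  · exact hb η η' γ γ' ((e _ _).1 h) ((e _ _).1 h') κ hκ
  · exact hc η γ ((e _ _).1 h) hp
  · exact hd η γ hM ((e _ _).1 h) a ha X

/-- (RC) the correlation sums. -/
theorem pf_RC : R_RC := by
  intro R _ _ θ I N hθ hI h2 a Y₀ γ γ' ha hY hγ
  exact Pool.Agent.H29.HT.pf_RC R θ I N hθ hI h2 (Ring.inverse 3) (Ring.inverse 5) a Y₀ γ γ'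
    ha hY hγ

/-- (RW) the sums over a residue class with a linear phase. -/
theorem pf_RW : R_RW := by
  intro R _ _ θ I N hθ hI h2 a Y₀ γ b ha hY hγ
  exact Pool.Agent.H29.HT.pf_RW R θ I N hθ hI h2 (Ring.inverse 3) (Ring.inverse 5) a Y₀ γ b
    ha hY hγ

end Pool.Agent.H29.DM
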