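import Pool.Agent.H23.DM.Defs

/-!
# The twelfth moment in the whole conductor: targets about finite rings
-/

set_option autoImplicit false

open Finset Complex

namespace Pool.Agent.H29.DM

open Pool.Agent.H31.SX (ND)
open Pool.Agent.H29.TC (AC MC)
open Pool.Agent.H23.DM (lg5 h5 Fq CS WD)

/-- (RL) the frequencies of the multiplicative characters. -/
def R_RL : Prop :=
  ∀ (R : Type) [CommRing R] [Fintype R] (θ : R → ℂ) (J : Ideal R), ND θ → J ^ 6 = ⊥ →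
    IsUnit (30 : R) →
    (∀ η : R → ℂ, MC η → ∃ γ : R, Fq θ J η γ) ∧
    (∀ (η η' : R → ℂ) (γ γ' : R), Fq θ J η γ → Fq θ J η' γ' → ∀ κ : Ideal R, κ ≤ J →
        ((∀ x ∈ κ, η (1 + x) = η' (1 + x)) ↔ ∀ t ∈ κ, (γ - γ') * t = 0)) ∧
    (∀ (η : R → ℂ) (γ : R), Fq θ J η γ →
      (∀ w : R, w ≠ 0 → ∃ r : R, IsUnit (1 + r * w) ∧ η (1 + r * w) ≠ 1) →
      ∀ a ∈ J, γ * a = 0 → a = 0) ∧
    ∀ (η : R → ℂ) (γ : R), MC η → Fq θ J η γ → ∀ a ∈ J, ∀ X : R,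
      (IsUnit X → η (X + a) * (starRingEnd ℂ) (η (X - a)) = θ (γ * (a * h5 a X))) ∧
      (¬ IsUnit X → η (X + a) = 0 ∧ η (X - a) = 0)

/-- (RC) the correlation sums. -/
def R_RC : Prop :=
  ∀ (R : Type) [CommRing R] [Fintype R] (θ : R → ℂ) (I : Ideal R) (N : ℕ), ND θ →
    I ^ N = ⊥ → IsUnit (2 : R) → ∀ a Y₀ γ γ' : R, a ∈ I → IsUnit Y₀ → IsUnit γ →
    (∀ x ∈ I, ‖CS θ I a Y₀ γ γ' x‖ ^ 2 ≤
      (Fintype.card R : ℝ) * ({δ : R | (γ - γ') * δ = 0}.ncard : ℝ)) ∧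
    (∀ x ∈ I, CS θ I a Y₀ γ γ' x ≠ 0 → ∀ δ ∈ I, (γ - γ') * δ = 0 → x * δ = 0) ∧
    (∀ x ∈ I, CS θ I a Y₀ γ γ' x ≠ 0 →
      ∃ v n : R, (∀ t ∈ I, n * t = 0) ∧ x = (γ - γ') * v + n) ∧
    (CS θ I a Y₀ γ γ' 0 ≠ 0 → ∀ δ ∈ I, (γ - γ') * δ = 0)

/-- (RW) the sums over a residue class with a linear phase. -/
def R_RW : Prop :=
  ∀ (R : Type) [CommRing R] [Fintype R] (θ : R → ℂ) (I : Ideal R) (N : ℕ), ND θ →
    I ^ N = ⊥ → IsUnit (2 : R) → ∀ a Y₀ γ b : R, a ∈ I → IsUnit Y₀ → IsUnit γ →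
    ‖WD θ I a Y₀ γ b‖ ^ 2 ≤ (Fintype.card R : ℝ)

end Pool.Agent.H29.DM
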