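import Pool.Agent.H29.DM.RLW

/-!
# The sum over a residue class without a linear phase
-/

set_option autoImplicit false

open Finset Complex

namespace Pool.Agent.H29.DM

open Pool.Agent.H31.SX (ND)
open Pool.Agent.H29.TC (AC MC)
open Pool.Agent.H23.DM (lg5 h5 Fq CS WD)

/-- (RW), (ii): without a linear phase the sum vanishes unless `I = ⊥`. -/
theorem pf_RW0 (R : Type) [CommRing R] [Fintype R] (θ : R → ℂ) (I : Ideal R) (N : ℕ)
    (hθ : ND θ) (hI : I ^ N = ⊥) (h2 : IsUnit (2 : R)) (a Y₀ γ : R) (ha : a ∈ I)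
    (hY : IsUnit Y₀) (hγ : IsUnit γ) (hne : WD θ I a Y₀ γ 0 ≠ 0) : ∀ δ ∈ I, δ = 0 := by
  intro δ hδ
  have e : CS θ I a Y₀ γ 0 0 = WD θ I a Y₀ γ 0 := by
    unfold CS WD
    refine Finset.sum_congr rfl fun τ _ => ?_
    by_cases hτ : τ ∈ I
    · rw [if_pos hτ, if_pos hτ]
      congr 1
      rw [add_zero]
      ring
    · rw [if_neg hτ, if_neg hτ]
  have h1 := (pf_RC R θ I N hθ hI h2 a Y₀ γ 0 ha hY hγ).2.2.2 (by rw [e]; exact hne) δ hδ
  rw [sub_zero] at h1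
  exact hγ.mul_right_eq_zero.1 h1

end Pool.Agent.H29.DM
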